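import Pool.Agent.BXS.Stmts

/-!
# Row LAP of squad BXS: the Laplacian in coordinates
-/

set_option autoImplicit false

namespace Pool.Agent.BXS.H75

open Set Filter Topology MeasureTheory InnerProductSpace Laplacian
open scoped InnerProductSpace ENNReal
open Pool.Agent.BE01F Pool.Agent.BEC Pool.Agent.BXS

noncomputable section

/-- the second derivative along a line -/
theorem line {X : Type} [NormedAddCommGroup X] [NormedSpace ℝ X] (g : X → ℝ) (x v : X)
    (hg : ContDiffAt ℝ 2 g x) :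
    iteratedDeriv 2 (fun s : ℝ => g (x + s • v)) 0 = iteratedFDeriv ℝ 2 g x ![v, v] := by
  have hl : ∀ s : ℝ, HasDerivAt (fun s : ℝ => x + s • v) v s := by
    intro s
    have h1 := ((hasDerivAt_id s).smul_const v).const_add x
    rw [one_smul] at h1
    exact h1
  have hx0 : x + (0 : ℝ) • v = x := by rw [zero_smul, add_zero]
  have hc : ContinuousAt (fun s : ℝ => x + s • v) 0 := (hl 0).continuousAt
  have hev : ∀ᶠ s in 𝓝 (0 : ℝ), ContDiffAt ℝ 2 g (x + s • v) := by
    have h1 : ∀ᶠ y in 𝓝 x, ContDiffAt ℝ 2 g y := hg.eventually (by simp)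
    have h2 : Tendsto (fun s : ℝ => x + s • v) (𝓝 0) (𝓝 x) := by
      have h3 := hc.tendsto
      rwa [hx0] at h3
    exact h2.eventually h1
  have hd : deriv (fun s : ℝ => g (x + s • v)) =ᶠ[𝓝 0] fun s => fderiv ℝ g (x + s • v) v := by
    filter_upwards [hev] with s hs
    have h1 : HasFDerivAt g (fderiv ℝ g (x + s • v)) (x + s • v) :=
      (hs.differentiableAt (by norm_num)).hasFDerivAt
    exact (h1.comp_hasDerivAt s (hl s)).deriv
  rw [iteratedDeriv_succ, iteratedDeriv_one, hd.deriv_eq, iteratedFDeriv_two_apply]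
  have h2 : DifferentiableAt ℝ (fderiv ℝ g) x :=
    (hg.fderiv_right (m := 1) (by norm_num)).differentiableAt (by norm_num)
  have h3 : HasFDerivAt (fderiv ℝ g) (fderiv ℝ (fderiv ℝ g) x) (x + (0 : ℝ) • v) := by
    rw [hx0]
    exact h2.hasFDerivAt
  have h4 : HasDerivAt (fun s : ℝ => fderiv ℝ g (x + s • v)) (fderiv ℝ (fderiv ℝ g) x v) 0 :=
    h3.comp_hasDerivAt 0 (hl 0)
  have h5 : HasDerivAt (fun s : ℝ => fderiv ℝ g (x + s • v) v) (fderiv ℝ (fderiv ℝ g) x v v) 0 := by
    have h6 := h4.clm_apply (hasDerivAt_const (0 : ℝ) v)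
    simpa using h6
  rw [h5.deriv]
  rfl

/-- Row LAP -/
theorem lap : LapStmt := by
  intro N F x hF
  have hf : ContDiffAt ℝ 2 (fun y : E N => F (WithLp.ofLp y)) x := by
    have h1 : ContDiff ℝ 2 (fun y : E N => (WithLp.ofLp y : Fin N → ℝ)) := by
      exact (PiLp.continuousLinearEquiv 2 ℝ (fun _ : Fin N => ℝ)).contDiff
    exact ContDiffAt.comp x hF h1.contDiffAt
  rw [laplacian_eq_iteratedFDeriv_orthonormalBasis (fun y : E N => F (WithLp.ofLp y))
    (EuclideanSpace.basisFun (Fin N) ℝ)]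
  refine Finset.sum_congr rfl fun i _ => ?_
  rw [← line _ _ _ hf]
  unfold Pool.Agent.BOX.dxx
  congr 1
  funext s
  congr 1
  rw [EuclideanSpace.basisFun_apply]
  rfl

end

end Pool.Agent.BXS.H75
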